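import Pool.Agent.H525R4.Mono.SumLower

/-!
# 3SUM-Indexing: quadratic space for monotone data structures with adaptive queries

Two arrays (finite sets of at most `n` integers from `0, …, N`, `N ≥ n ^ 2`) are preprocessed.  A
monotone data structure (`SumDS`) has `s` cells; every cell contains an arbitrary nondecreasing real
function of the two arrays (unlimited preprocessing, unlimited word length).  In addition there are
`2 r` free cells, which contain arbitrary nondecreasing functions of one of the arrays.  The query
`z` reads cells adaptively and answers whether `z` is the sum of an element of the first array and
an element of the second array, by a condition which is nondecreasing in the contents of the memory.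
The data structure may be random: every answer is correct with probability at least `1 / 2 + δ`, and
if `z` is not such a sum then the expected number of cells read is at most `t`.

Then `δ ^ 2 * n ^ 2 ≤ 1600 * s * t * log₂ ((n + r) / δ)`, if `400 * t * log₂ ((n + r) / δ) ≤ δ * n`.

So in this model polylogarithmic query time needs space `Ω~(n ^ 2)`, even if the number of cells
which depend on one array only is not counted, as long as it is at most `2 ^ (polylog n)`.

Proof.  The universes are `{4 u i + e}` and `{4 u k i + f}` with `i < k`, `e < u`, `f < 2 u`, where
`4 k u` is about `2 n`, and the queries are the `k ^ 2 * u` sums with `e + f = u + l - 1`, `l < u`;
each has the `u` representations `e < u`.  The true inputs of a representation are the two arrays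
with one element.  The false inputs of a query are random: all other elements are present, and of
the two elements of a representation exactly one (random) is present.  If the answer is positive on
the true input of `e` and negative on the false input, then one of the cells read on the false input
is larger on the true input than on the false one; it *serves* `e`.  Fix a cell, and let its owner
be the query for which the `L`-th largest of the values of the cell on the true inputs is the
largest.  For every other query the true inputs of the owner for these `L` representations lie below
the false input with probability at least `1 / 4` each, and half of these events are independent
(for queries with the same `i`, `j` and different `l` the partners of the elements are shifted by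
the difference of the `l`s); so the cell serves fewer than `L` elements, except with a probability
which is exponentially small in `L`.  A free cell has the same values for many queries, so the same
holds for all queries.  So if `u` is a large constant times `t L / δ`, every query must own a cell,
on the average over the random structures at least `δ` cells; every cell has only one owner.
-/

namespace Pool.Agent.Results.MP_e016b3_lc.AdaptiveMonotone

open Pool.Agent.H525R4.Mono

/-- Every randomised monotone data structure with `s` cells and `2 r` free cells, which solves
3SUM-Indexing for arrays of at most `n` integers from `0, …, N` with advantage `δ` and `t` probes,
satisfies `δ ^ 2 * n ^ 2 ≤ 1600 * s * t * log₂ ((n + r) / δ)`. -/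
theorem result (n N s r : ℕ) (δ t : ℝ) (hδ : 0 < δ) (hδ2 : δ ≤ 1 / 2) (ht : 1 ≤ t)
    (hnt : 400 * t * Real.logb 2 ((n + r) / δ) ≤ δ * n) (hN : n ^ 2 ≤ N)
    (Ω : Type) [Fintype Ω] (p : Ω → ℝ) (D : Ω → SumDS s r) (hD : SumSolves n N p D δ t) :
    δ ^ 2 * (n : ℝ) ^ 2 ≤ 1600 * s * t * Real.logb 2 ((n + r) / δ) :=
  sum_lower hδ hδ2 ht hnt hN p D hD

end Pool.Agent.Results.MP_e016b3_lc.AdaptiveMonotone
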