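import Mathlib
import Pool.Agent.H587R2.MRC.DS

/-!
# 3SUM-Indexing: space times query time is quadratic for monotone data structures

Two arrays (sets of at most `n` integers between `-N` and `N`) are preprocessed.  A monotone data
structure has `s` cells, every cell contains an arbitrary nondecreasing real function of the pair
of the two sets (unlimited preprocessing, unlimited word length), and the query `z` evaluates an
arbitrary nondecreasing real function of `t` numbers.  Every one of these numbers is the contents
of a cell or (for free in the space) the value of a nondecreasing function of the first array alone
or of the second array alone.  Which numbers are read depends only on `z`.  The data structure may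
be random, and every single query has to be answered correctly with probability at least
`1 / 2 + δ` (is `z` the sum of an element of the first array and an element of the second array?).

Then `δ ^ 2 * n ^ 2 ≤ 12000 * s * t`, if `482 * t ≤ δ * n` and `n ^ 2 ≤ N`.

So truly subquadratic space and query time `n ^ o(1)` are impossible in this model, even if each
array may be preprocessed on its own without any cost, and the tradeoff `s * t ≥ c * n ^ 2` holds
in the whole range of query times up to a constant times `n`; query time `2 * n` needs no cell for
arrays from fixed universes of `n` integers, and there `s * t = O (n ^ 2)` is possible for every
`t`: store the answers to those queries which have more than `t / 2` possible representations.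

Proof.  The universes are `{2 r i + j}` and `{2 r k i + j}` with `i < k`, `j < r`, where
`k * r ≤ n` and `r` is a large constant times `t / δ`, so that about `k ^ 2 * r` sums have about
`r` representations.  The true point of a representation `p = (x, y)` has the arrays `{x}` and
`{y}`.  The false points of a sum are given by sets `T` of its representations: `x` is missing for
`(x, y)` in `T` and `y` is missing for the other representations of the sum, all other integers are
present.  For a function of the arrays let `D(p)` be the set of all `T` such that it is larger at
the true point of `p` than at the false point `T`, and call `p` mixed if both the `T` in `D(p)`
which contain `p` and those which do not contain `p` make up at least `1 / 8` of `D(p)`.  If `T` is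
in `D(p)` for the answer of a query then it is in `D(p)` for one of the `t` numbers.  For the
representations which are not mixed for this number only a bounded part (on the average over `T`)
of every query is possible, as the sets `D(p)` are nested and a large family of sets is not biased
in many directions.  A function of one array has no mixed representations, and a cell has, on the
average over `T`, only `O (r)` of them: for different queries the zeros of `T` must cover all
representations `q` whose true points have larger values, which is unlikely if there is a large
matching of such `q` in other queries, or a large star at one of the two elements of `p`.
-/

namespace Pool.Agent.Results.MP_e016b3_lc.MonotoneTradeoff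

open Pool.Agent.H587R2.MRC

theorem result (n N s t : ℕ) (δ : ℝ) (hδ : 0 < δ) (hδ2 : δ ≤ 1 / 2) (ht : 1 ≤ t)
    (hn : 482 * (t : ℝ) ≤ δ * n) (hN : n ^ 2 ≤ N)
    (Ω : Type) [Fintype Ω] (p : Ω → ℝ) (D : Ω → DS s t) (hD : DSSolves n N δ p D) :
    δ ^ 2 * (n : ℝ) ^ 2 ≤ 12000 * ((s : ℝ) * t) :=
  ds_bound hδ hδ2 ht hn hN p D hD

end Pool.Agent.Results.MP_e016b3_lc.MonotoneTradeoff
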