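import Pool.Agent.H583R2.TSI.VMain

/-!
# Cell-probe lower bounds for 3SUM-Indexing with any fixed number of adaptive probes

Cell-probe model with free cache: the memory consists of `κ` cached cells, all of which are known
to the query procedure for free, and of `S` main cells; all cells have `w` bits.  The inputs are
two arrays of `n` integers of `w` bits, queries are integers of `w` bits.  Preprocessing and
computation are free and unlimited (and may depend on `n`, `w`, `κ`, `S` in an arbitrary
non-uniform way); only the number of main cells read by a query is counted.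
-/

namespace Pool.Agent.Results.MP_e016b3_lc.MultiProbeLowerBound

/-- A query scheme with `κ` cached cells and `S` main cells of `w` bits.  From the cache, the query
`z` and the list of contents read so far (latest first), `next` gives the address of the main cell
which is read next.  `accept` says whether the query `z`, given the cache and the list of contents
read, is accepted together with a further main cell `s` of content `c`. -/
structure Scheme (w κ S : ℕ) where
  next : (Fin κ → Fin (2 ^ w)) → ℕ → List (Fin (2 ^ w)) → Fin S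
  accept : (Fin κ → Fin (2 ^ w)) → ℕ → List (Fin (2 ^ w)) → Fin S → Fin (2 ^ w) → Bool

/-- The contents read by the first `t` (adaptive, deterministic) probes, latest first. -/
def Scheme.reads {w κ S : ℕ} (P : Scheme w κ S) (cache : Fin κ → Fin (2 ^ w))
    (mem : Fin S → Fin (2 ^ w)) (z : ℕ) : ℕ → List (Fin (2 ^ w))
  | 0 => []
  | t + 1 => mem (P.next cache z (P.reads cache mem z t)) :: P.reads cache mem z t

/-- The scheme certifies exactly the positive answers of 3SUM-Indexing for arrays of length `n`,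
where a query makes `t` adaptive deterministic probes and then ONE further probe, to a cell `s`
which may be chosen nondeterministically. -/
def Scheme.Certifies {w κ S : ℕ} (P : Scheme w κ S) (t n : ℕ) : Prop :=
  ∀ A₁ A₂ : Fin n → Fin (2 ^ w),
    ∃ (cache : Fin κ → Fin (2 ^ w)) (mem : Fin S → Fin (2 ^ w)), ∀ z < 2 ^ w,
      ((∃ s : Fin S, P.accept cache z (P.reads cache mem z t) s (mem s) = true) ↔
        ∃ i j, (A₁ i : ℕ) + (A₂ j : ℕ) = z)

theorem reads_eq {w κ S : ℕ} (P : Scheme w κ S) (cache : Fin κ → Fin (2 ^ w))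
    (mem : Fin S → Fin (2 ^ w)) (z : ℕ) (t : ℕ) :
    P.reads cache mem z t = H583T.rd P.next cache mem z t := by
  induction t with
  | zero => rfl
  | succ t ih => rw [Scheme.reads, H583T.rd, ih]

/-- **Main theorem.**  For every number `t ≥ 1` and every `ε > 0` there are `δ > 0`, `C` and `n₀`
such that for all `n ≥ n₀`, all word lengths `w ≥ C log₂ n` with `w ^ (t - 1) ≤ n ^ δ`, every cache
of at most `δ n` bits and all `S ≤ n ^ (1 + 1 / t - ε)`: no scheme with `t` adaptive probes
followed by one nondeterministic probe certifies the answers of 3SUM-Indexing. -/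
theorem result (t : ℕ) (ht : 1 ≤ t) (ε : ℝ) (hε : 0 < ε) :
    ∃ (δ C : ℝ) (n₀ : ℕ), 0 < δ ∧ ∀ n w κ S : ℕ, n₀ ≤ n → C * Real.logb 2 n ≤ w →
      (w : ℝ) ^ (t - 1) ≤ (n : ℝ) ^ δ → (κ : ℝ) * w ≤ δ * n →
      (S : ℝ) ≤ (n : ℝ) ^ (1 + 1 / (t : ℝ) - ε) →
      ∀ P : Scheme w κ S, ¬ P.Certifies t n := by
  obtain ⟨δ, C, n0, hδ, h⟩ := H583T.no_scheme t ht ε hε
  refine ⟨δ, C, n0, hδ, ?_⟩
  intro n w κ S hn hw hwd hκ hS P hP
  apply h n hn w κ S hw hwd hκ hS P.next P.accept
  intro A₁ A₂
  obtain ⟨cache, mem, hmem⟩ := hP A₁ A₂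
  refine ⟨cache, mem, ?_⟩
  intro z hz
  rw [← reads_eq]
  exact hmem z hz

/-- A deterministic query procedure: as above, the final answer is computed from the cache, the
query and the contents read. -/
structure Procedure (w κ S : ℕ) where
  next : (Fin κ → Fin (2 ^ w)) → ℕ → List (Fin (2 ^ w)) → Fin S
  answer : (Fin κ → Fin (2 ^ w)) → ℕ → List (Fin (2 ^ w)) → Bool

/-- contents read by the first `t` probes -/
def Procedure.reads {w κ S : ℕ} (P : Procedure w κ S) (cache : Fin κ → Fin (2 ^ w))
    (mem : Fin S → Fin (2 ^ w)) (z : ℕ) : ℕ → List (Fin (2 ^ w))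
  | 0 => []
  | t + 1 => mem (P.next cache z (P.reads cache mem z t)) :: P.reads cache mem z t

/-- The procedure solves 3SUM-Indexing for arrays of length `n` with `T` adaptive probes to the
main memory. -/
def Procedure.Solves {w κ S : ℕ} (P : Procedure w κ S) (T n : ℕ) : Prop :=
  ∀ A₁ A₂ : Fin n → Fin (2 ^ w),
    ∃ (cache : Fin κ → Fin (2 ^ w)) (mem : Fin S → Fin (2 ^ w)), ∀ z < 2 ^ w,
      (P.answer cache z (P.reads cache mem z T) = true ↔
        ∃ i j, (A₁ i : ℕ) + (A₂ j : ℕ) = z)

/-- **The deterministic special case.**  For every `T ≥ 2` and `ε > 0`: structures for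
3SUM-Indexing with `T` adaptive probes need more than `n ^ (1 + 1 / (T - 1) - ε)` cells, even with a
free cache of `δ n` bits. -/
theorem adaptive_probes (T : ℕ) (hT : 2 ≤ T) (ε : ℝ) (hε : 0 < ε) :
    ∃ (δ C : ℝ) (n₀ : ℕ), 0 < δ ∧ ∀ n w κ S : ℕ, n₀ ≤ n → C * Real.logb 2 n ≤ w →
      (w : ℝ) ^ (T - 2) ≤ (n : ℝ) ^ δ → (κ : ℝ) * w ≤ δ * n →
      (S : ℝ) ≤ (n : ℝ) ^ (1 + 1 / ((T : ℝ) - 1) - ε) →
      ∀ P : Procedure w κ S, ¬ P.Solves T n := by
  obtain ⟨t, rfl⟩ : ∃ t, T = t + 1 := ⟨T - 1, by omega⟩
  obtain ⟨δ, C, n0, hδ, h⟩ := result t (by omega) ε hε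
  refine ⟨δ, C, n0, hδ, ?_⟩
  intro n w κ S hn hw hwd hκ hS P hP
  have e1 : (((t + 1 : ℕ) : ℝ) - 1) = (t : ℝ) := by push_cast; ring
  rw [e1] at hS
  have e2 : t + 1 - 2 = t - 1 := by omega
  rw [e2] at hwd
  apply h n w κ S hn hw hwd hκ hS
    ⟨P.next, fun cache z l s c => decide (s = P.next cache z l) && P.answer cache z (c :: l)⟩
  intro A₁ A₂
  obtain ⟨cache, mem, hmem⟩ := hP A₁ A₂
  refine ⟨cache, mem, ?_⟩
  intro z hz
  have hr : ∀ m, Scheme.reads ⟨P.next, fun cache z l s c =>
      decide (s = P.next cache z l) && P.answer cache z (c :: l)⟩ cache mem z m =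
        P.reads cache mem z m := by
    intro m
    induction m with
    | zero => rfl
    | succ m ih => rw [Scheme.reads, Procedure.reads, ih]
  rw [← hmem z hz, hr t, Procedure.reads]
  constructor
  · rintro ⟨s, hs⟩
    simp only [Bool.and_eq_true, decide_eq_true_eq] at hs
    rw [← hs.1]
    exact hs.2
  · intro ha
    exact ⟨P.next cache z (P.reads cache mem z t), by simp [ha]⟩

end Pool.Agent.Results.MP_e016b3_lc.MultiProbeLowerBound
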